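import Mathlib

/-!
# A tree of ladders with isolated branches

`Ω` plays the role of `ω₁`.  Points of the space `XX Ω` are of two kinds.

* `Sum.inl p`: `p = (s, l)` where `l` is a limit element of `Ω` and `s` is a finite sequence of
  pairs `(α, k)` with `α < l`.
* `Sum.inr y`: an infinite sequence of pairs; these points are isolated.

The `n`-th basic neighbourhood of `(s, l)` consists of `(s, l)` and of all points whose sequence
extends `s` by a pair `(lad l k, k)`, `k ≥ n`, and which lie below `l`.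
-/

set_option linter.unusedSectionVars false

open Set Filter

namespace TH778.CMW

/-- the order-theoretic properties of `ω₁` which are used -/
class OmegaOne (Ω : Type) [LinearOrder Ω] : Prop where
  wf : WellFoundedLT Ω
  cIio : ∀ a : Ω, (Set.Iio a).Countable
  bdd : ∀ C : Set Ω, C.Countable → ∃ b, ∀ c ∈ C, c < b

variable {Ω : Type} [LinearOrder Ω] [OmegaOne Ω]

instance : WellFoundedLT Ω := OmegaOne.wf

/-- limit elements -/
def Lim (l : Ω) : Prop := (∃ b, b < l) ∧ ∀ b < l, ∃ c, b < c ∧ c < l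

theorem exists_ladder (l : Ω) (hl : Lim l) :
    ∃ f : ℕ → Ω, (∀ k, f k < l) ∧ Monotone f ∧ ∀ b < l, ∃ k, b < f k := by
  obtain ⟨⟨b0, hb0⟩, hlim⟩ := hl
  have hc : (Set.Iio l).Countable := OmegaOne.cIio l
  obtain ⟨e, he⟩ := hc.exists_eq_range ⟨b0, hb0⟩
  have hel : ∀ k, e k < l := fun k => by
    have : e k ∈ Set.Iio l := by rw [he]; exact ⟨k, rfl⟩
    exact this
  refine ⟨fun k => (Finset.range (k+1)).sup' ⟨0, by simp⟩ e, ?_, ?_, ?_⟩
  · intro k
    exact (Finset.sup'_lt_iff ⟨0, by simp⟩).2 fun i _ => hel i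
  · intro a b hab
    apply Finset.sup'_mono
    intro i hi
    simp only [Finset.mem_range] at hi ⊢
    omega
  · intro b hb
    obtain ⟨c, hbc, hcl⟩ := hlim b hb
    have : c ∈ Set.range e := by rw [← he]; exact hcl
    obtain ⟨k, rfl⟩ := this
    refine ⟨k, lt_of_lt_of_le hbc ?_⟩
    apply Finset.le_sup' e
    simp

open Classical in
/-- a ladder at `l` -/
noncomputable def lad (l : Ω) : ℕ → Ω := if h : Lim l then (exists_ladder l h).choose else fun _ => l

theorem lad_lt {l : Ω} (h : Lim l) (k : ℕ) : lad l k < l := by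
  unfold lad; rw [dif_pos h]; exact (exists_ladder l h).choose_spec.1 k

theorem lad_mono {l : Ω} (h : Lim l) : Monotone (lad l) := by
  unfold lad; rw [dif_pos h]; exact (exists_ladder l h).choose_spec.2.1

theorem lad_cof {l : Ω} (h : Lim l) : ∀ b < l, ∃ k, b < lad l k := by
  unfold lad; rw [dif_pos h]; exact (exists_ladder l h).choose_spec.2.2

theorem lad_ev {l : Ω} (h : Lim l) {b : Ω} (hb : b < l) : ∀ᶠ k in atTop, b < lad l k := by
  obtain ⟨k, hk⟩ := lad_cof h b hb
  exact eventually_atTop.2 ⟨k, fun i hi => lt_of_lt_of_le hk (lad_mono h hi)⟩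

/-- points of the first kind -/
structure APt (Ω : Type) [LinearOrder Ω] where
  /-- the finite sequence -/
  s : List (Ω × ℕ)
  /-- the limit element -/
  l : Ω
  lim : Lim l
  bd : ∀ q ∈ s, q.1 < l

theorem APt.ext' {p q : APt Ω} (h1 : p.s = q.s) (h2 : p.l = q.l) : p = q := by
  cases p; cases q; cases h1; cases h2; rfl

/-- the space -/
abbrev XX (Ω : Type) [LinearOrder Ω] := APt Ω ⊕ (ℕ → Ω × ℕ)

/-- the sequence of a point -/
def sq : XX Ω → ℕ → Option (Ω × ℕ)
  | Sum.inl p, i => p.s[i]?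
  | Sum.inr y, i => some (y i)

/-- the point `w` lies below `l` -/
def Below : XX Ω → Ω → Prop
  | Sum.inl p, l => p.l ≤ l
  | Sum.inr y, l => ∀ i, (y i).1 < l

theorem Below.mono {w : XX Ω} {l m : Ω} (h : Below w l) (hlm : l ≤ m) : Below w m := by
  cases w with
  | inl p => exact le_trans h hlm
  | inr y => exact fun i => lt_of_lt_of_le (h i) hlm

theorem Below.lt {w : XX Ω} {l : Ω} (h : Below w l) {i : ℕ} {a : Ω × ℕ} (ha : sq w i = some a) :
    a.1 < l := by
  cases w with
  | inl p =>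
    have : a ∈ p.s := List.mem_of_getElem? ha
    exact lt_of_lt_of_le (p.bd a this) h
  | inr y =>
    have : y i = a := by simpa [sq] using ha
    rw [← this]; exact h i

/-- `w` extends `p` through the pair `a` -/
def On (p : APt Ω) (w : XX Ω) (a : Ω × ℕ) : Prop :=
  (∀ i < p.s.length, sq w i = p.s[i]?) ∧ Below w p.l ∧ sq w p.s.length = some a ∧
    a.1 = lad p.l a.2

/-- basic neighbourhoods -/
def U (n : ℕ) (p : APt Ω) : Set (XX Ω) := {w | w = Sum.inl p ∨ ∃ a, On p w a ∧ n ≤ a.2}

theorem self_mem_U (n : ℕ) (p : APt Ω) : (Sum.inl p : XX Ω) ∈ U n p := Or.inl rfl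

theorem U_anti {m n : ℕ} (h : m ≤ n) (p : APt Ω) : U n p ⊆ U m p := by
  rintro w (rfl | ⟨a, ha, hn⟩)
  · exact Or.inl rfl
  · exact Or.inr ⟨a, ha, le_trans h hn⟩

theorem On.length_lt {p q : APt Ω} {a : Ω × ℕ} (h : On p (Sum.inl q) a) :
    p.s.length < q.s.length := by
  have := h.2.2.1
  simp only [sq] at this
  by_contra hc
  rw [List.getElem?_eq_none (by omega)] at this
  exact absurd this (by simp)

theorem On.uniq {p : APt Ω} {w : XX Ω} {a b : Ω × ℕ} (h : On p w a) (h' : On p w b) : a = b := by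
  have h1 := h.2.2.1
  rw [h'.2.2.1] at h1
  exact (Option.some.inj h1).symm

theorem On.trans {p q : APt Ω} {a : Ω × ℕ} (h : On p (Sum.inl q) a) {w : XX Ω}
    (hw : w ∈ U 0 q) : On p w a := by
  rcases hw with rfl | ⟨b, hb, _⟩
  · exact h
  have hlen := h.length_lt
  refine ⟨?_, ?_, ?_, h.2.2.2⟩
  · intro i hi
    rw [hb.1 i (by omega)]
    exact h.1 i hi
  · exact hb.2.1.mono h.2.1
  · rw [hb.1 _ hlen]
    exact h.2.2.1

instance topo : TopologicalSpace (XX Ω) where
  IsOpen V := ∀ p, (Sum.inl p : XX Ω) ∈ V → ∃ n, U n p ⊆ V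
  isOpen_univ := fun p _ => ⟨0, subset_univ _⟩
  isOpen_inter := by
    intro V W hV hW p hp
    obtain ⟨n, hn⟩ := hV p hp.1
    obtain ⟨m, hm⟩ := hW p hp.2
    exact ⟨max n m, subset_inter ((U_anti (le_max_left _ _) p).trans hn)
      ((U_anti (le_max_right _ _) p).trans hm)⟩
  isOpen_sUnion := by
    intro S hS p hp
    obtain ⟨V, hV, hpV⟩ := hp
    obtain ⟨n, hn⟩ := hS V hV p hpV
    exact ⟨n, hn.trans (subset_sUnion_of_mem hV)⟩

theorem isOpen_iff' {V : Set (XX Ω)} :
    IsOpen V ↔ ∀ p, (Sum.inl p : XX Ω) ∈ V → ∃ n, U n p ⊆ V := Iff.rfl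

theorem isOpen_U (n : ℕ) (p : APt Ω) : IsOpen (U n p) := by
  rw [isOpen_iff']
  intro q hq
  rcases hq with h | ⟨a, ha, hn⟩
  · have : q = p := Sum.inl.inj h
    subst this
    exact ⟨n, subset_rfl⟩
  · exact ⟨0, fun w hw => Or.inr ⟨a, ha.trans hw, hn⟩⟩

theorem isOpen_inr (S : Set (ℕ → Ω × ℕ)) : IsOpen ((Sum.inr '' S : Set (XX Ω))) := by
  rw [isOpen_iff']
  intro p hp
  obtain ⟨y, _, hy⟩ := hp
  exact absurd hy (by simp)

theorem isOpen_single (y : ℕ → Ω × ℕ) : IsOpen ({Sum.inr y} : Set (XX Ω)) := by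
  rw [isOpen_iff']
  intro p hp
  exact absurd hp (by simp)

theorem nhds_inl (p : APt Ω) :
    (nhds (Sum.inl p : XX Ω)).HasBasis (fun _ : ℕ => True) (fun n => U n p) := by
  constructor
  intro V
  rw [mem_nhds_iff]
  constructor
  · rintro ⟨W, hWV, hW, hp⟩
    obtain ⟨n, hn⟩ := isOpen_iff'.1 hW p hp
    exact ⟨n, trivial, hn.trans hWV⟩
  · rintro ⟨n, _, hn⟩
    exact ⟨U n p, hn, isOpen_U n p, self_mem_U n p⟩

theorem nhds_inr (y : ℕ → Ω × ℕ) : nhds (Sum.inr y : XX Ω) = pure (Sum.inr y) :=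
  isOpen_singleton_iff_nhds_eq_pure _ |>.1 (isOpen_single y)

/-- two different basic points can be separated; the first neighbourhood is fixed when the
second point does not belong to it -/
theorem sep {p q : APt Ω} (n : ℕ) (h : (Sum.inl q : XX Ω) ∉ U n p) :
    ∃ m, Disjoint (U m q) (U n p) := by
  have hne : q ≠ p := fun e => h (e ▸ self_mem_U n p)
  rcases lt_trichotomy p.s.length q.s.length with hlt | heq | hgt
  · -- `q` is longer
    by_cases hl : q.l ≤ p.l
    · refine ⟨0, Set.disjoint_left.2 fun w hw hw' => ?_⟩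
      rcases hw' with rfl | ⟨a, ha, hna⟩
      · rcases hw with e | ⟨b, hb, _⟩
        · exact hne (Sum.inl.inj e).symm
        · have := hb.length_lt; omega
      · apply h
        have hq : ∀ i < q.s.length, sq w i = q.s[i]? := by
          rcases hw with rfl | ⟨b, hb, _⟩
          · intro i _; rfl
          · exact hb.1
        refine Or.inr ⟨a, ⟨?_, hl, ?_, ha.2.2.2⟩, hna⟩
        · intro i hi
          rw [← ha.1 i hi]
          exact (hq i (by omega)).symm
        · rw [← ha.2.2.1]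
          exact (hq _ hlt).symm
    · push Not at hl
      obtain ⟨m, hm⟩ := lad_cof q.lim p.l hl
      refine ⟨m, Set.disjoint_left.2 fun w hw hw' => ?_⟩
      have hwp : Below w p.l ∨ w = Sum.inl p := by
        rcases hw' with rfl | ⟨a, ha, _⟩
        · exact Or.inr rfl
        · exact Or.inl ha.2.1
      rcases hw with rfl | ⟨b, hb, hmb⟩
      · rcases hwp with h1 | h1
        · exact absurd h1 (not_le.2 hl)
        · exact hne (Sum.inl.inj h1)
      · rcases hwp with h1 | rfl
        · have h2 := h1.lt hb.2.2.1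
          rw [hb.2.2.2] at h2
          exact absurd (lt_trans hm (lt_of_le_of_lt (lad_mono q.lim hmb) h2)) (lt_irrefl _)
        · have := hb.length_lt; omega
  · by_cases hs : p.s = q.s
    · have hl : p.l ≠ q.l := fun e => hne (APt.ext' hs.symm e.symm)
      obtain ⟨m, hm⟩ : ∃ m, ∀ k, m ≤ k → lad p.l k ≠ lad q.l k := by
        rcases lt_or_gt_of_ne hl with h1 | h1
        · obtain ⟨m, hm⟩ := lad_cof q.lim p.l h1
          exact ⟨m, fun k hk => ne_of_lt (lt_trans (lad_lt p.lim k)
            (lt_of_lt_of_le hm (lad_mono q.lim hk)))⟩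
        · obtain ⟨m, hm⟩ := lad_cof p.lim q.l h1
          exact ⟨m, fun k hk => ne_of_gt (lt_trans (lad_lt q.lim k)
            (lt_of_lt_of_le hm (lad_mono p.lim hk)))⟩
      refine ⟨m, Set.disjoint_left.2 fun w hw hw' => ?_⟩
      rcases hw with rfl | ⟨b, hb, hmb⟩
      · exact h hw'
      · rcases hw' with rfl | ⟨a, ha, _⟩
        · have := hb.length_lt; omega
        · have hab : a = b := by
            have h1 := ha.2.2.1
            rw [heq, hb.2.2.1] at h1
            exact (Option.some.inj h1).symm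
          subst hab
          exact hm a.2 hmb (ha.2.2.2.symm.trans hb.2.2.2)
    · refine ⟨0, Set.disjoint_left.2 fun w hw hw' => ?_⟩
      have hq : ∀ i < q.s.length, sq w i = q.s[i]? := by
        rcases hw with rfl | ⟨b, hb, _⟩
        · intro i _; rfl
        · exact hb.1
      have hp : ∀ i < p.s.length, sq w i = p.s[i]? := by
        rcases hw' with rfl | ⟨b, hb, _⟩
        · intro i _; rfl
        · exact hb.1
      apply hs
      apply List.ext_getElem?
      intro i
      by_cases hi : i < p.s.length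
      · rw [← hp i hi, ← hq i (by omega)]
      · rw [List.getElem?_eq_none (by omega), List.getElem?_eq_none (by omega)]
  · -- `q` is shorter
    obtain ⟨c, hc⟩ : ∃ c, p.s[q.s.length]? = some c := by
      rw [List.getElem?_eq_getElem hgt]; exact ⟨_, rfl⟩
    refine ⟨c.2 + 1, Set.disjoint_left.2 fun w hw hw' => ?_⟩
    have hp : sq w q.s.length = p.s[q.s.length]? := by
      rcases hw' with rfl | ⟨b, hb, _⟩
      · rfl
      · exact hb.1 _ hgt
    rcases hw with rfl | ⟨b, hb, hmb⟩
    · rw [hc] at hp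
      simp only [sq] at hp
      rw [List.getElem?_eq_none le_rfl] at hp
      exact absurd hp (by simp)
    · rw [hb.2.2.1, hc] at hp
      have := Option.some.inj hp
      subst this
      omega

theorem sep_inr {p : APt Ω} (y : ℕ → Ω × ℕ) : ∃ n, (Sum.inr y : XX Ω) ∉ U n p := by
  by_cases h : ∃ a, On p (Sum.inr y) a
  · obtain ⟨a, ha⟩ := h
    refine ⟨a.2 + 1, ?_⟩
    rintro (e | ⟨b, hb, hn⟩)
    · exact absurd e (by simp)
    · have := ha.uniq hb
      subst this
      omega
  · refine ⟨0, ?_⟩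
    rintro (e | ⟨b, hb, hn⟩)
    · exact absurd e (by simp)
    · exact h ⟨b, hb⟩

theorem sep_inl {p q : APt Ω} (hne : q ≠ p) : ∃ n, (Sum.inl q : XX Ω) ∉ U n p := by
  by_cases h : ∃ a, On p (Sum.inl q) a
  · obtain ⟨a, ha⟩ := h
    refine ⟨a.2 + 1, ?_⟩
    rintro (e | ⟨b, hb, hn⟩)
    · exact hne (Sum.inl.inj e)
    · have := ha.uniq hb
      subst this
      omega
  · refine ⟨0, ?_⟩
    rintro (e | ⟨b, hb, hn⟩)
    · exact hne (Sum.inl.inj e)
    · exact h ⟨b, hb⟩

theorem isClosed_U (n : ℕ) (p : APt Ω) : IsClosed (U n p) := by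
  rw [← isOpen_compl_iff, isOpen_iff']
  intro q hq
  obtain ⟨m, hm⟩ := sep n hq
  exact ⟨m, fun w hw hw' => Set.disjoint_left.1 hm hw hw'⟩

theorem isClopen_U (n : ℕ) (p : APt Ω) : IsClopen (U n p) := ⟨isClosed_U n p, isOpen_U n p⟩

theorem isClopen_single (y : ℕ → Ω × ℕ) : IsClopen ({Sum.inr y} : Set (XX Ω)) := by
  refine ⟨?_, isOpen_single y⟩
  rw [← isOpen_compl_iff, isOpen_iff']
  intro q _
  obtain ⟨n, hn⟩ := sep_inr (p := q) y
  refine ⟨n, fun w hw hw' => ?_⟩
  have : w = Sum.inr y := hw'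
  subst this
  exact hn hw

theorem clopen_basis : TopologicalSpace.IsTopologicalBasis {s : Set (XX Ω) | IsClopen s} := by
  apply TopologicalSpace.isTopologicalBasis_of_isOpen_of_nhds
  · intro u hu; exact hu.2
  · intro a u ha hu
    cases a with
    | inl p =>
      obtain ⟨n, hn⟩ := isOpen_iff'.1 hu p ha
      exact ⟨U n p, isClopen_U n p, self_mem_U n p, hn⟩
    | inr y => exact ⟨{Sum.inr y}, isClopen_single y, rfl, by simpa using ha⟩

instance t2 : T2Space (XX Ω) := by
  refine ⟨fun x z hxz => ?_⟩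
  have key : ∀ x z : XX Ω, x ≠ z → ∃ v : Set (XX Ω), IsClopen v ∧ x ∈ v ∧ z ∉ v := by
    intro x z hxz
    cases x with
    | inl p =>
      cases z with
      | inl q =>
        obtain ⟨n, hn⟩ := sep_inl (p := p) (q := q) (fun e => hxz (by rw [e]))
        exact ⟨U n p, isClopen_U n p, self_mem_U n p, hn⟩
      | inr y =>
        obtain ⟨n, hn⟩ := sep_inr (p := p) y
        exact ⟨U n p, isClopen_U n p, self_mem_U n p, hn⟩
    | inr y => exact ⟨{Sum.inr y}, isClopen_single y, rfl, fun h => hxz h.symm⟩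
  obtain ⟨v, hv, hx, hz⟩ := key x z hxz
  exact ⟨v, vᶜ, hv.2, hv.1.isOpen_compl, hx, hz, disjoint_compl_right⟩

instance fc : FirstCountableTopology (XX Ω) := by
  refine ⟨fun x => ?_⟩
  cases x with
  | inl p => exact (nhds_inl p).isCountablyGenerated
  | inr y => rw [nhds_inr]; infer_instance

instance reg : RegularSpace (XX Ω) := by
  apply RegularSpace.of_exists_mem_nhds_isClosed_subset
  intro a s hs
  cases a with
  | inl p =>
    obtain ⟨n, _, hn⟩ := (nhds_inl p).mem_iff.1 hs
    exact ⟨U n p, (nhds_inl p).mem_of_mem trivial, isClosed_U n p, hn⟩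
  | inr y =>
    refine ⟨{Sum.inr y}, (isOpen_single y).mem_nhds rfl, (isClopen_single y).1, ?_⟩
    rintro w rfl
    exact mem_of_mem_nhds hs

end TH778.CMW
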