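import Pool.Agent.TH778.CMW.Base

/-!
# Countable metacompactness and pressing down
-/

set_option linter.unusedSectionVars false

open Set Filter

namespace TH778.CMW

variable {Ω : Type} [LinearOrder Ω] [OmegaOne Ω]

theorem exists_least (P : Ω → Prop) (h : ∃ x, P x) : ∃ x, P x ∧ ∀ y, P y → x ≤ y := by
  have hne : {x | P x}.Nonempty := h
  refine ⟨wellFounded_lt.min {x | P x} hne, wellFounded_lt.min_mem {x | P x} hne, fun y hy => ?_⟩
  by_contra hc
  push Not at hc
  exact WellFounded.not_lt_min wellFounded_lt {x | P x} hy hc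

/-- closure points of a function are unbounded -/
theorem closure_pt (F : Ω → Ω) (μ : Ω) :
    ∃ e, μ < e ∧ Lim e ∧ ∀ b < e, F b < e := by
  classical
  -- a function bounding `F` on initial segments
  have h1 : ∀ a : Ω, ∃ b, a < b ∧ ∀ c ≤ a, F c < b := by
    intro a
    have hc : (insert a (F '' (insert a (Set.Iio a)))).Countable :=
      (((OmegaOne.cIio a).insert a).image F).insert a
    obtain ⟨b, hb⟩ := OmegaOne.bdd _ hc
    refine ⟨b, hb a (mem_insert _ _), fun c hc' => hb _ (mem_insert_of_mem _ ⟨c, ?_, rfl⟩)⟩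
    rcases hc'.lt_or_eq with h | h
    · exact mem_insert_of_mem _ h
    · rw [h]; exact mem_insert _ _
  choose G hG using h1
  let x : ℕ → Ω := fun n => G^[n] μ
  have hx : ∀ n, x (n+1) = G (x n) := fun n => by
    simp only [x, Function.iterate_succ_apply']
  obtain ⟨b, hb⟩ := OmegaOne.bdd _ (Set.countable_range x)
  obtain ⟨e, he, hmin'⟩ := exists_least (fun d : Ω => ∀ n, x n < d)
    ⟨b, fun n => hb _ ⟨n, rfl⟩⟩
  have hmin : ∀ d < e, ∃ n, d ≤ x n := by
    intro d hd
    by_contra hc
    push Not at hc
    exact absurd (hmin' d hc) (not_le.2 hd)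
  refine ⟨e, he 0, ⟨⟨_, he 0⟩, ?_⟩, ?_⟩
  · intro d hd
    obtain ⟨n, hn⟩ := hmin d hd
    refine ⟨x (n+1), lt_of_le_of_lt hn ?_, he _⟩
    rw [hx]; exact (hG _).1
  · intro d hd
    obtain ⟨n, hn⟩ := hmin d hd
    have := (hG (x n)).2 d hn
    rw [← hx] at this
    exact this.trans (he _)

theorem countable_APt (e : Ω) : {p : APt Ω | p.l < e}.Countable := by
  classical
  have hc : (Set.Iio e).Countable := OmegaOne.cIio e
  have : Countable (Set.Iio e) := hc.to_subtype
  let φ : {p : APt Ω | p.l < e} → List (Set.Iio e × ℕ) × Set.Iio e := fun p =>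
    (p.1.s.attach.map fun q => (⟨q.1.1, lt_trans (p.1.bd q.1 q.2) p.2⟩, q.1.2), ⟨p.1.l, p.2⟩)
  have hφ : Function.Injective φ := by
    intro p q h
    have h1 := congrArg Prod.fst h
    have h2 := congrArg Prod.snd h
    simp only [φ] at h1 h2
    have h3 := congrArg (List.map fun z : Set.Iio e × ℕ => (z.1.1, z.2)) h1
    simp only [List.map_map, Function.comp_def, Prod.mk.eta, List.attach_map_subtype_val] at h3
    exact Subtype.ext (APt.ext' (by simpa using h3) (Subtype.mk.inj h2))
  have : Countable {p : APt Ω | p.l < e} := hφ.countable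
  exact this

/-- eventual avoidance -/
def Av (p q : APt Ω) (k : ℕ) : Prop :=
  (q.s = p.s → lad p.l k ≠ lad q.l k) ∧ (∀ a, q.s[p.s.length]? = some a → k ≠ a.2) ∧
    (q.l < p.l → q.l ≤ lad p.l k)

theorem av_ev {p q : APt Ω} (hne : q ≠ p) : ∀ᶠ k in atTop, Av p q k := by
  refine Eventually.and ?_ (Eventually.and ?_ ?_)
  · by_cases hs : q.s = p.s
    · have hl : q.l ≠ p.l := fun e => hne (APt.ext' hs e)
      rcases lt_or_gt_of_ne hl with h | h
      · filter_upwards [lad_ev p.lim h] with k hk _
        exact ne_of_gt (lt_trans (lad_lt q.lim k) hk)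
      · filter_upwards [lad_ev q.lim h] with k hk _
        exact ne_of_lt (lt_trans (lad_lt p.lim k) hk)
    · exact Eventually.of_forall fun k h => absurd h hs
  · rcases h : q.s[p.s.length]? with _ | a
    · exact Eventually.of_forall fun k a ha => absurd ha (by simp)
    · filter_upwards [eventually_gt_atTop a.2] with k hk b hb
      have : a = b := Option.some.inj hb
      subst this
      omega
  · by_cases h : q.l < p.l
    · filter_upwards [lad_ev p.lim h] with k hk _
      exact hk.le
    · exact Eventually.of_forall fun k h' => absurd h' h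

section core

variable (j n : APt Ω → ℕ)

/-- the size of a point -/
def NN (p : APt Ω) : ℕ := max (j p) (n p) + 1

/-- elements of size `≤ k` over `s` whose `k`-th ladder point is `α` -/
def AA (s : List (Ω × ℕ)) (α : Ω) (k : ℕ) : Set Ω :=
  {l | ∃ p : APt Ω, p.s = s ∧ p.l = l ∧ NN j n p ≤ k ∧ lad l k = α}

/-- exceptional points -/
def Exc (p : APt Ω) : Prop :=
  ∃ k, NN j n p ≤ k ∧ ∃ b, ∀ l ∈ AA j n p.s (lad p.l k) k, l ≤ b

theorem exists_F : ∃ F : Ω → Ω, ∀ p : APt Ω, Exc j n p → ∃ b < p.l, p.l ≤ F b := by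
  classical
  -- a bound for every triple
  have h1 : ∀ t : List (Ω × ℕ) × Ω × ℕ, ∃ b : Ω,
      (∃ b', ∀ l ∈ AA j n t.1 t.2.1 t.2.2, l ≤ b') → ∀ l ∈ AA j n t.1 t.2.1 t.2.2, l ≤ b := by
    intro t
    by_cases h : ∃ b', ∀ l ∈ AA j n t.1 t.2.1 t.2.2, l ≤ b'
    · obtain ⟨b, hb⟩ := h
      exact ⟨b, fun _ => hb⟩
    · exact ⟨t.2.1, fun h' => absurd h' h⟩
  choose bd hbd using h1
  have h2 : ∀ β : Ω, {t : List (Ω × ℕ) × Ω × ℕ | (∀ q ∈ t.1, q.1 < β) ∧ t.2.1 < β}.Countable := by
    intro β
    have : Countable (Set.Iio β) := (OmegaOne.cIio β).to_subtype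
    let φ : {t : List (Ω × ℕ) × Ω × ℕ | (∀ q ∈ t.1, q.1 < β) ∧ t.2.1 < β} →
        List (Set.Iio β × ℕ) × Set.Iio β × ℕ := fun t =>
      (t.1.1.attach.map fun q => (⟨q.1.1, t.2.1 q.1 q.2⟩, q.1.2), ⟨t.1.2.1, t.2.2⟩, t.1.2.2)
    have hφ : Function.Injective φ := by
      intro p q h
      have h1 := congrArg Prod.fst h
      have h2 := congrArg (fun z => z.2.1.1) h
      have h4 := congrArg (fun z => z.2.2) h
      simp only [φ] at h1 h2 h4
      have h3 := congrArg (List.map fun z : Set.Iio β × ℕ => (z.1.1, z.2)) h1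
      simp only [List.map_map, Function.comp_def, Prod.mk.eta] at h3
      rw [List.attach_map_subtype_val, List.attach_map_subtype_val] at h3
      apply Subtype.ext
      apply Prod.ext
      · exact h3
      · exact Prod.ext h2 h4
    have : Countable {t : List (Ω × ℕ) × Ω × ℕ | (∀ q ∈ t.1, q.1 < β) ∧ t.2.1 < β} :=
      hφ.countable
    exact this
  have h3 : ∀ β : Ω, ∃ c : Ω, ∀ t : List (Ω × ℕ) × Ω × ℕ,
      ((∀ q ∈ t.1, q.1 < β) ∧ t.2.1 < β) → bd t < c := by
    intro β
    obtain ⟨c, hc⟩ := OmegaOne.bdd _ ((h2 β).image bd)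
    exact ⟨c, fun t ht => hc _ ⟨t, ht, rfl⟩⟩
  choose F hF using h3
  refine ⟨F, fun p hp => ?_⟩
  obtain ⟨k, hk, hb⟩ := hp
  -- find `b < p.l` above everything
  have h4 : ∀ L : List (Ω × ℕ), (∀ q ∈ L, q.1 < p.l) → ∃ b < p.l, ∀ q ∈ L, q.1 < b := by
    intro L
    induction L with
    | nil =>
      intro _
      obtain ⟨⟨b, hb⟩, _⟩ := p.lim
      exact ⟨b, hb, by simp⟩
    | cons a L ih =>
      intro h
      obtain ⟨b, hb, hb'⟩ := ih fun q hq => h q (List.mem_cons_of_mem _ hq)
      obtain ⟨c, hc, hc'⟩ := p.lim.2 (max a.1 b) (max_lt (h a (List.mem_cons_self)) hb)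
      refine ⟨c, hc', fun q hq => ?_⟩
      rcases List.mem_cons.1 hq with rfl | hq
      · exact lt_of_le_of_lt (le_max_left _ _) hc
      · exact lt_trans (hb' q hq) (lt_of_le_of_lt (le_max_right _ _) hc)
  obtain ⟨b, hbl, hb1⟩ := h4 ((lad p.l k, k) :: p.s) (by
    intro q hq
    rcases List.mem_cons.1 hq with rfl | hq
    · exact lad_lt p.lim k
    · exact p.bd q hq)
  refine ⟨b, hbl, ?_⟩
  have h5 : p.l ≤ bd (p.s, lad p.l k, k) :=
    hbd (p.s, lad p.l k, k) hb p.l ⟨p, rfl, rfl, hk, rfl⟩
  exact (lt_of_le_of_lt h5 (hF b (p.s, lad p.l k, k)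
    ⟨fun q hq => hb1 q (List.mem_cons_of_mem _ hq), hb1 (lad p.l k, k) List.mem_cons_self⟩)).le

theorem exists_h (hn : ∀ p q a, On p (Sum.inl q) a → n p ≤ a.2 → j q ≤ j p) :
    ∃ h : APt Ω → ℕ, (∀ p, n p ≤ h p) ∧
      ∀ w : XX Ω, ∃ J, ∀ p, w ∈ U (h p) p → j p ≤ J := by
  classical
  obtain ⟨F, hF⟩ := exists_F j n
  have hβ : ∀ p : APt Ω, ∃ b, Exc j n p → b < p.l ∧ p.l ≤ F b := by
    intro p
    by_cases h : Exc j n p
    · obtain ⟨b, hb⟩ := hF p h
      exact ⟨b, fun _ => hb⟩
    · exact ⟨p.l, fun h' => absurd h' h⟩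
  choose β hβ using hβ
  -- closed set
  let E : Set Ω := {e | ∀ b < e, F b < e}
  have hE : ∀ μ, ∃ e ∈ E, μ < e := by
    intro μ
    obtain ⟨e, he, _, he'⟩ := closure_pt F μ
    exact ⟨e, he', he⟩
  have htop : ∀ μ, ∃ e, e ∈ E ∧ μ < e ∧ ∀ e' ∈ E, μ < e' → e ≤ e' := by
    intro μ
    obtain ⟨e, he, he'⟩ := exists_least (fun e => e ∈ E ∧ μ < e) (by
      obtain ⟨e, h1, h2⟩ := hE μ
      exact ⟨e, h1, h2⟩)
    exact ⟨e, he.1, he.2, fun e' h1 h2 => he' e' ⟨h1, h2⟩⟩
  choose top htop using htop
  -- codes
  have hcode : ∀ e : Ω, ∃ c : APt Ω → ℕ, Set.InjOn c {p | p.l < e} := by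
    intro e
    exact Set.countable_iff_exists_injOn.1 (countable_APt e)
  choose c hc using hcode
  -- the function
  have hh : ∀ p : APt Ω, ∃ m : ℕ, NN j n p ≤ m ∧ (¬ Exc j n p → m = NN j n p) ∧
      (Exc j n p → (∀ k, m ≤ k → β p < lad p.l k) ∧
        ∀ q, q ≠ p → q.l < top p.l → c (top p.l) q < c (top p.l) p →
          ∀ k, m ≤ k → Av p q k) := by
    intro p
    by_cases hp : Exc j n p
    · have hfin : {q : APt Ω | q.l < top p.l ∧ c (top p.l) q < c (top p.l) p}.Finite := by
        apply Set.Finite.of_finite_image (f := c (top p.l))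
        · apply (Set.finite_Iio (c (top p.l) p)).subset
          rintro _ ⟨q, hq, rfl⟩
          exact hq.2
        · exact (hc (top p.l)).mono fun q hq => hq.1
      have hev : ∀ᶠ k in atTop, ∀ q ∈ {q : APt Ω | q.l < top p.l ∧
          c (top p.l) q < c (top p.l) p}, q ≠ p → Av p q k := by
        rw [Filter.eventually_all_finite hfin]
        intro q _
        by_cases hq : q = p
        · exact Eventually.of_forall fun k h => absurd hq h
        · filter_upwards [av_ev hq] with k hk _
          exact hk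
      obtain ⟨m, hm⟩ := eventually_atTop.1
        ((hev.and (lad_ev p.lim (hβ p hp).1)).and (eventually_ge_atTop (NN j n p)))
      exact ⟨m, (hm m le_rfl).2, fun h => absurd hp h, fun _ =>
        ⟨fun k hk => (hm k hk).1.2, fun q hq h1 h2 k hk => (hm k hk).1.1 q ⟨h1, h2⟩ hq⟩⟩
    · exact ⟨NN j n p, le_rfl, fun _ => rfl, fun h => absurd h hp⟩
  choose h h1 h2 h3 using hh
  have hnh : ∀ p, n p ≤ h p := fun p =>
    le_trans (le_trans (le_max_right _ _) (Nat.le_succ _)) (h1 p)
  have hjh : ∀ p, j p < h p := fun p =>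
    lt_of_lt_of_le (Nat.lt_succ_of_le (le_max_left _ _)) (h1 p)
  refine ⟨h, hnh, fun w => ?_⟩
  cases w with
  | inl t =>
    refine ⟨max (j t) ((t.s.map Prod.snd).foldr max 0), fun p hp => ?_⟩
    rcases hp with e | ⟨a, ha, hha⟩
    · have : t = p := Sum.inl.inj e
      subst this
      exact le_max_left _ _
    · refine le_trans ?_ (le_max_right _ _)
      have hat : a ∈ t.s := List.mem_of_getElem? ha.2.2.1
      have hle : ∀ L : List ℕ, ∀ x ∈ L, x ≤ L.foldr max 0 := by
        intro L
        induction L with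
        | nil => intro x hx; simp at hx
        | cons b L ih =>
          intro x hx
          rcases List.mem_cons.1 hx with rfl | hx
          · exact le_max_left _ _
          · exact le_trans (ih x hx) (le_max_right _ _)
      exact le_trans (le_trans (hjh p).le hha)
        (hle _ a.2 (List.mem_map.2 ⟨a, hat, rfl⟩))
  | inr y =>
    by_cases hex : ∃ p1, ¬ Exc j n p1 ∧ (Sum.inr y : XX Ω) ∈ U (h p1) p1
    · obtain ⟨p1, hp1, hy1⟩ := hex
      rcases hy1 with e | ⟨a1, ha1, hm1⟩
      · exact absurd e (by simp)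
      have hya : y p1.s.length = a1 := by simpa [sq] using ha1.2.2.1
      refine ⟨(Finset.range (p1.s.length + 1)).sup (fun i => (y i).2), fun p hp => ?_⟩
      rcases hp with e | ⟨a, ha, hha⟩
      · exact absurd e (by simp)
      have hya' : y p.s.length = a := by simpa [sq] using ha.2.2.1
      have hsup : ∀ i ≤ p1.s.length, (y i).2 ≤
          (Finset.range (p1.s.length + 1)).sup (fun i => (y i).2) := fun i hi =>
        Finset.le_sup (f := fun i => (y i).2) (by simp; omega)
      by_cases hlen : p.s.length ≤ p1.s.length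
      · refine le_trans (le_trans (hjh p).le hha) ?_
        rw [← hya']
        exact hsup _ hlen
      · push Not at hlen
        -- unboundedly many good elements over `p1.s`
        have hub : ∃ l ∈ AA j n p1.s (lad p1.l a1.2) a1.2, p.l < l := by
          by_contra hcon
          push Not at hcon
          apply hp1
          refine ⟨a1.2, ?_, p.l, hcon⟩
          rw [h2 p1 hp1] at hm1
          exact hm1
        obtain ⟨l, ⟨p2, hs2, hl2, hN2, hlad⟩, hpl⟩ := hub
        have hOn : On p2 (Sum.inl p) a1 := by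
          refine ⟨?_, ?_, ?_, ?_⟩
          · intro i hi
            rw [hs2] at hi ⊢
            have e1 := ha.1 i (by omega)
            have e2 := ha1.1 i hi
            simp only [sq] at e1 e2 ⊢
            rw [← e1, e2]
          · show p.l ≤ p2.l
            rw [hl2]; exact hpl.le
          · rw [hs2]
            have e1 := ha.1 p1.s.length hlen
            have e2 := ha1.2.2.1
            simp only [sq] at e1 e2 ⊢
            rw [← e1, e2]
          · rw [hl2, hlad]; exact ha1.2.2.2
        have hj : j p ≤ j p2 := hn p2 p a1 hOn (by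
          exact le_trans (le_trans (le_trans (le_max_right _ _) (Nat.le_succ _)) hN2) le_rfl)
        have hj2 : j p2 ≤ a1.2 :=
          le_trans (le_trans (le_trans (le_max_left _ _) (Nat.le_succ _)) hN2) le_rfl
        refine le_trans hj (le_trans hj2 ?_)
        rw [← hya]
        exact hsup _ le_rfl
    · push Not at hex
      have hallE : ∀ p, (Sum.inr y : XX Ω) ∈ U (h p) p → Exc j n p := by
        intro p hp
        by_contra hc
        exact hex p hc hp
      -- they all have the same top
      have htopeq : ∀ p p', (Sum.inr y : XX Ω) ∈ U (h p) p → (Sum.inr y : XX Ω) ∈ U (h p') p' →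
          p.l ≤ p'.l → top p.l = top p'.l := by
        intro p p' hp hp' hle
        have hE' := hallE p' hp'
        have hp0 := hp
        rcases hp' with e | ⟨a', ha', hha'⟩
        · exact absurd e (by simp)
        rcases hp with e | ⟨a, ha, hha⟩
        · exact absurd e (by simp)
        have hbl : β p' < p.l := by
          have t1 := (h3 p' hE').1 a'.2 hha'
          rw [← ha'.2.2.2] at t1
          exact t1.trans (ha.2.1.lt ha'.2.2.1)
        have hno : ∀ e ∈ E, p.l < e → p'.l < e := by
          intro e he hpe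
          by_contra hcon
          push Not at hcon
          have := he (β p') (hbl.trans hpe)
          exact absurd (lt_of_le_of_lt (hβ p' hE').2 this) (not_lt.2 hcon)
        apply le_antisymm
        · exact (htop p.l).2.2 _ (htop p'.l).1 (lt_of_le_of_lt hle (htop p'.l).2.1)
        · exact (htop p'.l).2.2 _ (htop p.l).1 (hno _ (htop p.l).1 (htop p.l).2.1)
      by_cases hany : ∃ p, (Sum.inr y : XX Ω) ∈ U (h p) p
      · -- minimal code
        obtain ⟨pa, hpa⟩ := hany
        have hne : {m : ℕ | ∃ p, (Sum.inr y : XX Ω) ∈ U (h p) p ∧ c (top p.l) p = m}.Nonempty :=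
          ⟨_, pa, hpa, rfl⟩
        obtain ⟨p0, hp0, hcm⟩ := Nat.sInf_mem hne
        have hmin : ∀ p, (Sum.inr y : XX Ω) ∈ U (h p) p → c (top p0.l) p0 ≤ c (top p.l) p := by
          intro p hp
          rw [hcm]
          exact Nat.sInf_le ⟨p, hp, rfl⟩
        refine ⟨j p0, fun p hp => ?_⟩
        by_cases hpp : p = p0
        · rw [hpp]
        have hteq : top p.l = top p0.l := by
          rcases le_total p.l p0.l with h' | h'
          · exact htopeq p p0 hp hp0 h'
          · exact (htopeq p0 p hp0 hp h').symm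
        have hlt : c (top p.l) p0 < c (top p.l) p := by
          have h5 := hmin p hp
          rw [← hteq] at h5
          rcases h5.lt_or_eq with h' | h'
          · exact h'
          · exfalso
            apply hpp
            apply hc (top p.l) _ _ h'.symm
            · exact (htop p.l).2.1
            · show p0.l < top p.l
              rw [hteq]; exact (htop p0.l).2.1
        have hpE := hallE p hp
        rcases hp with e | ⟨a, ha, hha⟩
        · exact absurd e (by simp)
        rcases hp0 with e | ⟨a0, ha0, hha0⟩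
        · exact absurd e (by simp)
        have hav := (h3 p hpE).2 p0 (fun e => hpp e.symm) (by
          rw [hteq]; exact (htop p0.l).2.1) hlt a.2 hha
        have hya : y p.s.length = a := by simpa [sq] using ha.2.2.1
        have hya0 : y p0.s.length = a0 := by simpa [sq] using ha0.2.2.1
        rcases lt_trichotomy p.s.length p0.s.length with hl | hl | hl
        · exfalso
          apply hav.2.1 a _ rfl
          rw [← ha0.1 _ hl]
          exact ha.2.2.1
        · exfalso
          have hss : p0.s = p.s := by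
            apply List.ext_getElem?
            intro i
            by_cases hi : i < p.s.length
            · rw [← ha.1 i hi, ← ha0.1 i (by omega)]
            · rw [List.getElem?_eq_none (by omega), List.getElem?_eq_none (by omega)]
          apply hav.1 hss
          have haa : a0 = a := by rw [← hya, ← hya0, hl]
          subst haa
          rw [← ha.2.2.2, ← ha0.2.2.2]
        · by_cases hll : p0.l < p.l
          · exfalso
            have t1 := hav.2.2 hll
            rw [← ha.2.2.2] at t1
            exact absurd (ha0.2.1.lt ha.2.2.1) (not_lt.2 t1)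
          · push Not at hll
            apply hn p0 p a0 _ (le_trans (hnh p0) hha0)
            refine ⟨?_, hll, ?_, ha0.2.2.2⟩
            · intro i hi
              have e1 := ha.1 i (by omega)
              have e2 := ha0.1 i hi
              simp only [sq] at e1 e2 ⊢
              rw [← e1, e2]
            · have e1 := ha.1 _ hl
              have e2 := ha0.2.2.1
              simp only [sq] at e1 e2 ⊢
              rw [← e1, e2]
      · exact ⟨0, fun p hp => absurd ⟨p, hp⟩ hany⟩

end core

end TH778.CMW
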