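import Mathlib

/-!
# Covering properties
-/

namespace TH778.CMW

variable (X : Type) [TopologicalSpace X]

/-- `𝒱` is a family of open sets, each of which lies in a member of `𝒰` -/
def OpenFine {X : Type} [TopologicalSpace X] (𝒱 𝒰 : Set (Set X)) : Prop :=
  (∀ V ∈ 𝒱, IsOpen V) ∧ ∀ V ∈ 𝒱, ∃ W ∈ 𝒰, V ⊆ W

/-- `𝒰` is an open cover of `X` -/
def OpenCover {X : Type} [TopologicalSpace X] (𝒰 : Set (Set X)) : Prop :=
  (∀ V ∈ 𝒰, IsOpen V) ∧ ⋃₀ 𝒰 = Set.univ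

/-- every countable open cover has a point-finite open refinement -/
def CountablyMetacompact : Prop :=
  ∀ 𝒰 : Set (Set X), 𝒰.Countable → OpenCover 𝒰 →
    ∃ 𝒱 : Set (Set X), OpenCover 𝒱 ∧ OpenFine 𝒱 𝒰 ∧ ∀ x, {V ∈ 𝒱 | x ∈ V}.Finite

/-- `θ`-refinable (submetacompact) spaces: every open cover has a sequence `𝒱 n` of open covers
refining it such that every point is in only finitely many members of some `𝒱 n` -/
def ThetaRefinable : Prop :=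
  ∀ 𝒰 : Set (Set X), OpenCover 𝒰 →
    ∃ 𝒱 : ℕ → Set (Set X), (∀ n, OpenCover (𝒱 n) ∧ OpenFine (𝒱 n) 𝒰) ∧
      ∀ x, ∃ n, {V ∈ 𝒱 n | x ∈ V}.Finite

/-- weakly `θ`-refinable spaces: every open cover has an open refinement `⋃ n, 𝒱 n` such that for
every point `x` there is `n` such that `x` is in at least one and in only finitely many members
of `𝒱 n` -/
def WeaklyThetaRefinable : Prop :=
  ∀ 𝒰 : Set (Set X), OpenCover 𝒰 →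
    ∃ 𝒱 : ℕ → Set (Set X), OpenCover (⋃ n, 𝒱 n) ∧ OpenFine (⋃ n, 𝒱 n) 𝒰 ∧
      ∀ x, ∃ n, {V ∈ 𝒱 n | x ∈ V}.Finite ∧ {V ∈ 𝒱 n | x ∈ V}.Nonempty

/-- quasi-developable spaces -/
def QuasiDevelopable : Prop :=
  ∃ 𝒢 : ℕ → Set (Set X), (∀ n, ∀ G ∈ 𝒢 n, IsOpen G) ∧
    ∀ x, ∀ V : Set X, IsOpen V → x ∈ V →
      ∃ n, x ∈ ⋃₀ {G ∈ 𝒢 n | x ∈ G} ∧ ⋃₀ {G ∈ 𝒢 n | x ∈ G} ⊆ V

end TH778.CMW
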