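import Pool.Agent.TH778.CMW.Core
import Pool.Agent.TH778.CMW.Defs

/-!
# The covering properties of the space
-/

set_option linter.unusedSectionVars false

open Set Filter

namespace TH778.CMW

variable {Ω : Type} [LinearOrder Ω] [OmegaOne Ω]

/-- two points of the same length in a common basic set -/
theorem eq_of_mem_U {p q : APt Ω} {n : ℕ} (h : (Sum.inl p : XX Ω) ∈ U n q)
    (hl : p.s.length = q.s.length) : p = q := by
  rcases h with e | ⟨a, ha, _⟩
  · exact Sum.inl.inj e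
  · have := ha.length_lt; omega

theorem cm_fun (G : ℕ → Set (XX Ω)) (hG : ∀ i, IsOpen (G i)) (hc : ∀ x, ∃ i, x ∈ G i) :
    ∃ W : ℕ → Set (XX Ω), (∀ i, IsOpen (W i)) ∧ (∀ i, W i ⊆ G i) ∧ (∀ x, ∃ i, x ∈ W i) ∧
      ∀ x, ∃ J, ∀ i, x ∈ W i → i ≤ J := by
  classical
  let j : XX Ω → ℕ := fun x => Nat.find (hc x)
  have hj : ∀ x, x ∈ G (j x) := fun x => Nat.find_spec (hc x)
  have hjm : ∀ x i, x ∈ G i → j x ≤ i := fun x i h => Nat.find_min' (hc x) h
  have hn : ∀ p : APt Ω, ∃ n, U n p ⊆ G (j (Sum.inl p)) := fun p =>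
    isOpen_iff'.1 (hG _) p (hj _)
  choose n hn using hn
  obtain ⟨h, hnh, hJ⟩ := exists_h (fun p => j (Sum.inl p)) n (by
    intro p q a ha hna
    exact hjm _ _ (hn p (Or.inr ⟨a, ha, hna⟩)))
  refine ⟨fun i => (⋃ p ∈ {p : APt Ω | j (Sum.inl p) = i}, U (h p) p) ∪
    Sum.inr '' {y | j (Sum.inr y) = i}, ?_, ?_, ?_, ?_⟩
  · intro i
    exact (isOpen_biUnion fun p _ => isOpen_U _ _).union (isOpen_inr _)
  · intro i
    apply union_subset
    · apply iUnion₂_subset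
      rintro p hp
      have hp' : j (Sum.inl p) = i := hp
      rw [← hp']
      exact (U_anti (hnh p) p).trans (hn p)
    · rintro _ ⟨y, hy, rfl⟩
      have hy' : j (Sum.inr y) = i := hy
      rw [← hy']
      exact hj _
  · intro x
    cases x with
    | inl p =>
      refine ⟨j (Sum.inl p), Or.inl ?_⟩
      exact mem_iUnion₂.2 ⟨p, rfl, self_mem_U _ p⟩
    | inr y => exact ⟨j (Sum.inr y), Or.inr ⟨y, rfl, rfl⟩⟩
  · intro x
    obtain ⟨J, hJ⟩ := hJ x
    refine ⟨max J (j x), fun i hi => ?_⟩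
    rcases hi with hi | ⟨y, hy, rfl⟩
    · obtain ⟨p, hp, hxp⟩ := mem_iUnion₂.1 hi
      have hp' : j (Sum.inl p) = i := hp
      rw [← hp']
      exact le_trans (hJ p hxp) (le_max_left _ _)
    · have hy' : j (Sum.inr y) = i := hy
      rw [← hy']
      exact le_max_right _ _

theorem cm : CountablyMetacompact (XX Ω) := by
  intro 𝒰 hcount hcov
  by_cases hne : 𝒰.Nonempty
  · obtain ⟨G, hG⟩ := hcount.exists_eq_range hne
    have h1 : ∀ i, IsOpen (G i) := fun i => hcov.1 _ (by rw [hG]; exact ⟨i, rfl⟩)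
    have h2 : ∀ x, ∃ i, x ∈ G i := by
      intro x
      have : x ∈ ⋃₀ 𝒰 := by rw [hcov.2]; trivial
      obtain ⟨V, hV, hx⟩ := this
      rw [hG] at hV
      obtain ⟨i, rfl⟩ := hV
      exact ⟨i, hx⟩
    obtain ⟨W, hW1, hW2, hW3, hW4⟩ := cm_fun G h1 h2
    refine ⟨Set.range W, ⟨?_, ?_⟩, ⟨?_, ?_⟩, ?_⟩
    · rintro _ ⟨i, rfl⟩; exact hW1 i
    · apply eq_univ_of_forall
      intro x
      obtain ⟨i, hi⟩ := hW3 x
      exact ⟨W i, ⟨i, rfl⟩, hi⟩
    · rintro _ ⟨i, rfl⟩; exact hW1 i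
    · rintro _ ⟨i, rfl⟩
      exact ⟨G i, by rw [hG]; exact ⟨i, rfl⟩, hW2 i⟩
    · intro x
      obtain ⟨J, hJ⟩ := hW4 x
      apply ((Set.finite_Iic J).image W).subset
      rintro _ ⟨⟨i, rfl⟩, hx⟩
      exact ⟨i, hJ i hx, rfl⟩
  · rw [Set.not_nonempty_iff_eq_empty] at hne
    subst hne
    refine ⟨∅, hcov, ⟨fun V hV => absurd hV (by simp), fun V hV => absurd hV (by simp)⟩, ?_⟩
    intro x
    simp

theorem wtr : WeaklyThetaRefinable (XX Ω) := by
  classical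
  intro 𝒰 hcov
  have h0 : ∀ x : XX Ω, ∃ W ∈ 𝒰, x ∈ W := by
    intro x
    have : x ∈ ⋃₀ 𝒰 := by rw [hcov.2]; trivial
    exact this
  choose W hW hxW using h0
  have hn : ∀ p : APt Ω, ∃ n, U n p ⊆ W (Sum.inl p) := fun p =>
    isOpen_iff'.1 (hcov.1 _ (hW _)) p (hxW _)
  choose n hn using hn
  let 𝒱 : ℕ → Set (Set (XX Ω)) := fun k =>
    if k = 0 then {V | ∃ y, V = {Sum.inr y}} else {V | ∃ p : APt Ω, p.s.length + 1 = k ∧ V = U (n p) p}
  have hop : ∀ V ∈ ⋃ k, 𝒱 k, IsOpen V ∧ ∃ W ∈ 𝒰, V ⊆ W := by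
    intro V hV
    obtain ⟨k, hk⟩ := mem_iUnion.1 hV
    simp only [𝒱] at hk
    split_ifs at hk with h
    · obtain ⟨y, rfl⟩ := hk
      refine ⟨isOpen_single y, W (Sum.inr y), hW _, ?_⟩
      rintro _ rfl
      exact hxW _
    · obtain ⟨p, _, rfl⟩ := hk
      exact ⟨isOpen_U _ _, W (Sum.inl p), hW _, hn p⟩
  have hpt : ∀ x : XX Ω, ∃ k, {V ∈ 𝒱 k | x ∈ V}.Finite ∧ {V ∈ 𝒱 k | x ∈ V}.Nonempty := by
    intro x
    cases x with
    | inl p =>
      refine ⟨p.s.length + 1, ?_, ?_⟩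
      · apply (Set.finite_singleton (U (n p) p)).subset
        rintro V ⟨hV, hx⟩
        simp only [𝒱, Nat.add_eq_zero_iff, one_ne_zero, and_false, if_false] at hV
        obtain ⟨q, hq, rfl⟩ := hV
        have := eq_of_mem_U hx (by omega)
        rw [this]; rfl
      · refine ⟨U (n p) p, ?_, self_mem_U _ _⟩
        simp only [𝒱, Nat.add_eq_zero_iff, one_ne_zero, and_false, if_false]
        exact ⟨p, rfl, rfl⟩
    | inr y =>
      refine ⟨0, ?_, ?_⟩
      · apply (Set.finite_singleton ({Sum.inr y} : Set (XX Ω))).subset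
        rintro V ⟨hV, hx⟩
        simp only [𝒱, if_true] at hV
        obtain ⟨z, rfl⟩ := hV
        have hx' : (Sum.inr y : XX Ω) = Sum.inr z := hx
        rw [hx']; rfl
      · refine ⟨{Sum.inr y}, ?_, rfl⟩
        simp only [𝒱, if_true]
        exact ⟨y, rfl⟩
  refine ⟨𝒱, ⟨fun V hV => (hop V hV).1, ?_⟩, ⟨fun V hV => (hop V hV).1, fun V hV => (hop V hV).2⟩,
    hpt⟩
  apply eq_univ_of_forall
  intro x
  obtain ⟨k, _, V, hV, hx⟩ := hpt x
  exact ⟨V, mem_iUnion.2 ⟨k, hV⟩, hx⟩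

theorem qd : QuasiDevelopable (XX Ω) := by
  classical
  let 𝒢 : ℕ → Set (Set (XX Ω)) := fun k =>
    if k = 0 then {V | ∃ y, V = {Sum.inr y}} else
      {V | ∃ p : APt Ω, p.s.length = (Nat.unpair (k-1)).1 ∧ V = U (Nat.unpair (k-1)).2 p}
  refine ⟨𝒢, ?_, ?_⟩
  · intro k V hV
    simp only [𝒢] at hV
    split_ifs at hV with h
    · obtain ⟨y, rfl⟩ := hV; exact isOpen_single y
    · obtain ⟨p, _, rfl⟩ := hV; exact isOpen_U _ _
  · intro x V hV hx
    cases x with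
    | inl p =>
      obtain ⟨n, hn⟩ := isOpen_iff'.1 hV p hx
      have hmem : ∀ S : Set (XX Ω), S ∈ 𝒢 (Nat.pair p.s.length n + 1) ↔
          ∃ q : APt Ω, q.s.length = p.s.length ∧ S = U n q := by
        intro S
        simp only [𝒢, Nat.add_eq_zero_iff, one_ne_zero, and_false, if_false,
          Nat.add_sub_cancel, Nat.unpair_pair, Set.mem_ofPred_eq]
      refine ⟨Nat.pair p.s.length n + 1, ?_, ?_⟩
      · exact ⟨U n p, ⟨(hmem _).2 ⟨p, rfl, rfl⟩, self_mem_U _ _⟩, self_mem_U _ _⟩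
      · apply sUnion_subset
        rintro S ⟨hS, hpS⟩
        obtain ⟨q, hq, rfl⟩ := (hmem _).1 hS
        have := eq_of_mem_U hpS hq.symm
        rw [← this]
        exact hn
    | inr y =>
      refine ⟨0, ?_, ?_⟩
      · refine ⟨{Sum.inr y}, ⟨?_, rfl⟩, rfl⟩
        simp only [𝒢, if_true]
        exact ⟨y, rfl⟩
      · apply sUnion_subset
        rintro S ⟨hS, hpS⟩
        simp only [𝒢, if_true] at hS
        obtain ⟨z, rfl⟩ := hS
        have h : (Sum.inr y : XX Ω) = Sum.inr z := hpS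
        rw [← h]
        rintro _ rfl
        exact hx

/-- pressing down at a node -/
theorem press (t : List (Ω × ℕ)) (g : APt Ω → ℕ) :
    ∃ a : Ω × ℕ, ∀ b : Ω, ∃ p : APt Ω, p.s = t ∧ b < p.l ∧ g p = a.2 ∧ lad p.l a.2 = a.1 := by
  classical
  by_contra hcon
  push Not at hcon
  choose b hb using hcon
  -- a bound over all second coordinates
  have h1 : ∀ α : Ω, ∃ c, ∀ m : ℕ, b (α, m) < c := by
    intro α
    obtain ⟨c, hc⟩ := OmegaOne.bdd _ (Set.countable_range fun m => b (α, m))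
    exact ⟨c, fun m => hc _ ⟨m, rfl⟩⟩
  choose F hF using h1
  obtain ⟨μ, hμ⟩ : ∃ μ : Ω, ∀ q ∈ t, q.1 < μ := by
    obtain ⟨μ, hμ⟩ := OmegaOne.bdd (Prod.fst '' {q | q ∈ t}) ((List.finite_toSet t).image _).countable
    exact ⟨μ, fun q hq => hμ _ ⟨q, hq, rfl⟩⟩
  obtain ⟨e, hμe, hlim, he⟩ := closure_pt F μ
  let p : APt Ω := ⟨t, e, hlim, fun q hq => lt_trans (hμ q hq) hμe⟩
  have h2 : lad e (g p) < e := lad_lt hlim _
  have h3 : b (lad e (g p), g p) < e := (hF _ _).trans (he _ h2)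
  exact hb (lad e (g p), g p) p rfl h3 rfl rfl

theorem not_tr (Ω : Type) [LinearOrder Ω] [OmegaOne Ω] : ¬ ThetaRefinable (XX Ω) := by
  classical
  intro hTR
  let 𝒰 : Set (Set (XX Ω)) := {V | (∃ p : APt Ω, V = U 0 p) ∨ ∃ y, V = {Sum.inr y}}
  have hcov : OpenCover 𝒰 := by
    constructor
    · rintro V (⟨p, rfl⟩ | ⟨y, rfl⟩)
      · exact isOpen_U _ _
      · exact isOpen_single y
    · apply eq_univ_of_forall
      intro x
      cases x with
      | inl p => exact ⟨U 0 p, Or.inl ⟨p, rfl⟩, self_mem_U _ _⟩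
      | inr y => exact ⟨{Sum.inr y}, Or.inr ⟨y, rfl⟩, rfl⟩
  obtain ⟨𝒱, h𝒱, hfin⟩ := hTR 𝒰 hcov
  -- choose members and radii
  have h0 : ∀ k, ∀ p : APt Ω, ∃ V, ∃ g : ℕ, V ∈ 𝒱 k ∧ (Sum.inl p : XX Ω) ∈ V ∧ U g p ⊆ V := by
    intro k p
    have : (Sum.inl p : XX Ω) ∈ ⋃₀ (𝒱 k) := by rw [(h𝒱 k).1.2]; trivial
    obtain ⟨V, hV, hp⟩ := this
    obtain ⟨g, hg⟩ := isOpen_iff'.1 ((h𝒱 k).1.1 V hV) p hp
    exact ⟨V, g, hV, hp, hg⟩
  choose V g hV hpV hgV using h0
  have hpr : ∀ k (t : List (Ω × ℕ)), ∃ a : Ω × ℕ, ∀ b : Ω, ∃ p : APt Ω, p.s = t ∧ b < p.l ∧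
      g k p = a.2 ∧ lad p.l a.2 = a.1 := fun k t => press t (g k)
  choose f hf using hpr
  -- the branch
  let T : ℕ → List (Ω × ℕ) := fun k => Nat.rec [] (fun k L => L ++ [f k L]) k
  have hT0 : T 0 = [] := rfl
  have hT : ∀ k, T (k+1) = T k ++ [f k (T k)] := fun k => rfl
  let y : ℕ → Ω × ℕ := fun k => f k (T k)
  have hTl : ∀ k, (T k).length = k := by
    intro k
    induction k with
    | zero => rfl
    | succ k ih => rw [hT, List.length_append, ih]; rfl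
  have hTy : ∀ k, ∀ i < k, (T k)[i]? = some (y i) := by
    intro k
    induction k with
    | zero => intro i hi; omega
    | succ k ih =>
      intro i hi
      rw [hT]
      rcases Nat.lt_succ_iff_lt_or_eq.1 hi with h | rfl
      · rw [List.getElem?_append_left (by rw [hTl]; exact h)]
        exact ih i h
      · rw [List.getElem?_append_right (by rw [hTl])]
        rw [hTl]
        simp [y]
  obtain ⟨k, hk⟩ := hfin (Sum.inr y)
  -- members of `𝒱 k` contain boundedly many points of one node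
  have hbound : ∀ S ∈ 𝒱 k, ∃ c : Ω, ∀ p : APt Ω, (Sum.inl p : XX Ω) ∈ S → p.l ≤ c := by
    intro S hS
    obtain ⟨W, hW, hSW⟩ := (h𝒱 k).2.2 S hS
    rcases hW with ⟨q, rfl⟩ | ⟨z, rfl⟩
    · refine ⟨q.l, fun p hp => ?_⟩
      rcases hSW hp with e | ⟨a, ha, _⟩
      · rw [Sum.inl.inj e]
      · exact ha.2.1
    · obtain ⟨c, _⟩ := OmegaOne.bdd (∅ : Set Ω) Set.countable_empty
      exact ⟨c, fun p hp => absurd (hSW hp) (by simp)⟩
  have hbound' : ∀ S : Set (XX Ω), ∃ c : Ω, S ∈ 𝒱 k →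
      ∀ p : APt Ω, (Sum.inl p : XX Ω) ∈ S → p.l ≤ c := by
    intro S
    by_cases hS : S ∈ 𝒱 k
    · obtain ⟨c, hc⟩ := hbound S hS
      exact ⟨c, fun _ => hc⟩
    · obtain ⟨c, _⟩ := OmegaOne.bdd (∅ : Set Ω) Set.countable_empty
      exact ⟨c, fun h => absurd h hS⟩
  choose c hc using hbound'
  obtain ⟨d, hd⟩ := OmegaOne.bdd ((c '' {S ∈ 𝒱 k | (Sum.inr y : XX Ω) ∈ S}) ∪
    Set.range fun i => (y i).1) (((hk.image c).countable).union (Set.countable_range _))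
  obtain ⟨p, hps, hpl, hpg, hplad⟩ := hf k (T k) d
  have hyp : (Sum.inr y : XX Ω) ∈ V k p := by
    apply hgV k p
    refine Or.inr ⟨y k, ⟨?_, ?_, ?_, ?_⟩, ?_⟩
    · intro i hi
      rw [hps, hTl] at hi
      rw [hps, hTy k i hi]; rfl
    · intro i
      exact (hd _ (Or.inr ⟨i, rfl⟩)).trans hpl
    · rw [hps, hTl]; rfl
    · exact hplad.symm
    · exact hpg.le
  have h5 := hc (V k p) (hV k p) p (hpV k p)
  have h6 := hd (c (V k p)) (Or.inl ⟨V k p, ⟨hV k p, hyp⟩, rfl⟩)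
  exact absurd (lt_of_le_of_lt h5 (h6.trans hpl)) (lt_irrefl _)

/-- a well-ordered type of order type `ω₁` -/
abbrev W1 : Type := (Cardinal.aleph 1 : Cardinal.{0}).ord.ToType

instance : OmegaOne W1 where
  wf := inferInstance
  cIio := by
    intro a
    have h : Cardinal.mk (Set.Iio a) < Cardinal.aleph 1 := Cardinal.mk_Iio_ord_toType a
    rw [← Cardinal.le_aleph0_iff_set_countable]
    have h1 : (Cardinal.aleph 1 : Cardinal.{0}) = Order.succ Cardinal.aleph0 := by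
      rw [← Cardinal.aleph_zero, ← Cardinal.aleph_succ]
      simp
    exact Order.lt_succ_iff.1 (lt_of_lt_of_eq h h1)
  bdd := by
    intro C hC
    by_contra hcon
    push Not at hcon
    have h1 : IsCofinal C := fun b => by
      obtain ⟨s, hs, hb⟩ := hcon b
      exact ⟨s, hs, hb⟩
    have h2 := Order.cof_le h1
    rw [Ordinal.cof_toType, Cardinal.isRegular_aleph_one.cof_ord] at h2
    have h3 : Cardinal.mk C ≤ Cardinal.aleph0 := Cardinal.le_aleph0_iff_set_countable.2 hC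
    exact absurd (h2.trans h3) (not_le.2 Cardinal.aleph0_lt_aleph_one)

end TH778.CMW
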